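import Pool.Agent.ZP3.Stmts

/-!
# ZP3 row LOC3 (helper15): the local theorem
-/

set_option autoImplicit false

namespace Pool.Agent.ZP3.H15

open Polynomial Pool.Agent.ZPT Pool.Agent.ZP3

theorem pow_dvd_eq {K : Type} [Field K] {x y : K} {a b M N : ℕ} (h : x ^ (a * M) = y ^ (b * M))
    (hd : M ∣ N) : x ^ (a * N) = y ^ (b * N) := by
  obtain ⟨k, rfl⟩ := hd
  rw [← mul_assoc, ← mul_assoc, pow_mul x, pow_mul y, h]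

theorem pow_dvd_eq' {K : Type} [Field K] {x y : K} {M N : ℕ} (h : x ^ M = y ^ M)
    (hd : M ∣ N) : x ^ N = y ^ N := by
  obtain ⟨k, rfl⟩ := hd
  rw [pow_mul x, pow_mul y, h]

theorem loc3 (hLP1 : LP1Stmt) (hLP2 : LP2Stmt) (hVX1 : VX1Stmt) (hVX2 : VX2Stmt) : LOC3Stmt := by
  intro U hU p hp K _ _ _ _ _ hExt e r A g₁ g₂ g₃ S ε he her hrp hA hA0 hg1 hg2 hg3 hD hS hε
  rcases Nat.lt_or_eq_of_le her with hlt | heq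
  · -- first pattern
    obtain ⟨M₀, hM0, h0⟩ := hLP1 U hU p hp K hExt e r A g₁ g₂ g₃ he hlt hrp hA hA0 hg1 hg2 hg3
    have hv : ∀ β : K, ∃ M : ℕ, 1 ≤ M ∧ (β ∈ S → ∀ t x₃ q₁ q₂ q₃ ξ : K,
        Pt p U e r A g₁ g₂ g₃ t x₃ q₁ q₂ q₃ →
        ‖x₃ - β‖ ≤ ε → ‖t‖ ^ e = (p : ℝ)⁻¹ → ‖q₂‖ = (p : ℝ)⁻¹ → Tame p (q₃ / q₂) → Tame p ξ →
        q₃ ^ r = ξ ^ r * q₁ ^ e → q₁ ^ (e * M) = q₃ ^ (r * M)) := by
      intro β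
      by_cases hβ : β ∈ S
      · obtain ⟨M, hM, h⟩ := hVX1 U hU p hp (by omega) K hExt e r A g₁ g₂ g₃ β ε he hlt (by omega)
          hA hA0 hg1 hg2 hg3 (hS β hβ) hε
        exact ⟨M, hM, fun _ => h⟩
      · exact ⟨1, le_rfl, fun h => absurd h hβ⟩
    choose f hf1 hf2 using hv
    refine ⟨M₀ * ∏ β ∈ S, f β, ?_, ?_⟩
    · exact Nat.mul_pos hM0 (Finset.prod_pos fun β _ => hf1 β)
    · intro t x₃ q₁ q₂ q₃ hPt hβ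
      rcases h0 t x₃ q₁ q₂ q₃ hPt with h | h | h | ⟨h1, h2, h3, ξ, h4, h5⟩
      · exact Or.inl (pow_dvd_eq' h (Dvd.intro _ rfl))
      · exact Or.inr (Or.inl (pow_dvd_eq h (Dvd.intro _ rfl)))
      · exact Or.inr (Or.inr (pow_dvd_eq h (Dvd.intro _ rfl)))
      · obtain ⟨β, hβS, hβε⟩ := hβ h1
        have h6 := hf2 β hβS t x₃ q₁ q₂ q₃ ξ hPt hβε h1 h2 h3 h4 h5
        exact Or.inr (Or.inl (pow_dvd_eq h6
          (Dvd.dvd.mul_left (Finset.dvd_prod_of_mem f hβS) _)))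
  · -- second pattern
    subst heq
    obtain ⟨M₀, hM0, h0⟩ := hLP2 U hU p hp K hExt e A g₁ g₂ g₃ he hrp hA hA0 hg1 hg2 hg3 (hD rfl)
    have hv : ∀ β : K, ∃ M : ℕ, 1 ≤ M ∧ (β ∈ S → ∀ t x₃ q₁ q₂ q₃ : K,
        Pt p U e e A g₁ g₂ g₃ t x₃ q₁ q₂ q₃ →
        ‖x₃ - β‖ ≤ ε → ‖t‖ ^ e = (p : ℝ)⁻¹ → ‖q₂‖ = (p : ℝ)⁻¹ → ‖q₁‖ = (p : ℝ)⁻¹ →
        Tame p (q₃ / q₂) → Tame p (q₃ / q₁) → q₁ ^ M = q₃ ^ M) := by
      intro β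
      by_cases hβ : β ∈ S
      · obtain ⟨M, hM, h⟩ := hVX2 U hU p hp (by omega) K hExt e A g₁ g₂ g₃ β ε he (by omega)
          hA hA0 hg1 hg2 hg3 (hS β hβ) (hD rfl) hε
        exact ⟨M, hM, fun _ => h⟩
      · exact ⟨1, le_rfl, fun h => absurd h hβ⟩
    choose f hf1 hf2 using hv
    refine ⟨M₀ * ∏ β ∈ S, f β, ?_, ?_⟩
    · exact Nat.mul_pos hM0 (Finset.prod_pos fun β _ => hf1 β)
    · intro t x₃ q₁ q₂ q₃ hPt hβ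
      rcases h0 t x₃ q₁ q₂ q₃ hPt with h | h | h | ⟨h1, h2, h3, h4, h5⟩
      · exact Or.inl (pow_dvd_eq' h (Dvd.intro _ rfl))
      · exact Or.inr (Or.inl (pow_dvd_eq' h (Dvd.dvd.mul_left (Dvd.intro _ rfl) _)))
      · exact Or.inr (Or.inr (pow_dvd_eq' h (Dvd.dvd.mul_left (Dvd.intro _ rfl) _)))
      · obtain ⟨β, hβS, hβε⟩ := hβ h1
        have h6 := hf2 β hβS t x₃ q₁ q₂ q₃ hPt hβε h1 h2 h3 h4 h5
        exact Or.inr (Or.inl (pow_dvd_eq' h6 (Dvd.dvd.mul_left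
          (Dvd.dvd.mul_left (Finset.dvd_prod_of_mem f hβS) _) _)))

end Pool.Agent.ZP3.H15
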